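import Pool.Agent.X171.CodesExist

/-!
# The D2P and the DD2P classes are `G_δ` in the space of codes `𝒫_∞`
-/

set_option autoImplicit false

open Set Metric Filter Topology

namespace Pool.Agent.Results.MP_146262_an.BothGDelta

open Pool.Agent.X171.Codes

/-- Every pseudonorm `μ` on `V` has a completion `X μ`, and, whatever the choice of the
completions, the class of the spaces with the D2P and the class of the spaces with the DD2P are
`G_δ` subsets of the space `𝒫_∞` of the `μ` with `X μ` infinite-dimensional. -/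
theorem result :
    (∀ μ : Pn, ∃ (X : Type) (_ : NormedAddCommGroup X) (_ : NormedSpace ℝ X) (j : V →+ X),
      IsCompletion μ.1 j) ∧
    ∀ (X : Pn → Type) [∀ μ, NormedAddCommGroup (X μ)] [∀ μ, NormedSpace ℝ (X μ)]
      (j : ∀ μ, V →+ X μ), (∀ μ : Pn, IsCompletion μ.1 (j μ)) →
      IsGδ {μ : {μ : Pn // ¬ FiniteDimensional ℝ (X μ)} | D2P (X μ.1)} ∧
      IsGδ {μ : {μ : Pn // ¬ FiniteDimensional ℝ (X μ)} | DD2P (X μ.1)} := by
  refine ⟨exists_completion, ?_⟩
  intro X _ _ j hj
  constructor
  · have h : IsGδ {μ : Pn | D2P (X μ)} := by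
      have : {μ : Pn | D2P (X μ)} =
          {μ : Pn | ∀ (x : V) (n k : ℕ), μ.1 x < 1 → Cov T1 n x (1 / ((k : ℝ) + 1)) μ} := by
        ext μ
        exact d2p_iff (hj μ)
      rw [this]
      exact isGδ_cov T1 isOpen_T1
    exact h.preimage continuous_subtype_val
  · have h : IsGδ {μ : Pn | DD2P (X μ)} := by
      have : {μ : Pn | DD2P (X μ)} =
          {μ : Pn | ∀ (x : V) (n k : ℕ), μ.1 x < 1 → Cov T2 n x (1 / ((k : ℝ) + 1)) μ} := by
        ext μ
        exact dd2p_iff (hj μ)
      rw [this]
      exact isGδ_cov T2 isOpen_T2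
    exact h.preimage continuous_subtype_val

end Pool.Agent.Results.MP_146262_an.BothGDelta
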